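import Pool.Agent.TH59.HI.Sgn

set_option autoImplicit false

open Finset Equiv

namespace Pool.Agent.TH59.HI

open Pool.Agent.TH349.HI

variable {F : Type} [Field F]

open Classical in
/-- signed sum over pairs (permutation preserving `U`, fixed graph with all degrees two on `U`) -/
noncomputable def KK {V : Type} [Fintype V] [DecidableEq V] (U : Finset V) (x : F) : F :=
  ∑ σ : Perm V, ∑ G : SimpleGraph V,
    if (∀ a b, G.Adj (σ a) (σ b) ↔ G.Adj a b) ∧ (∀ v ∈ U, Nat.card (G.neighborSet v) = 2) then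
      ((sg σ U : ℤ) : F) * x ^ Nat.card G.edgeSet else 0

lemma KK_transport {V V' : Type} [Fintype V] [DecidableEq V] [Fintype V'] [DecidableEq V']
    (e : V' ≃ V) (U : Finset V') (x : F) : KK (U.map e.toEmbedding) x = KK U x := by
  classical
  unfold KK
  rw [← Equiv.sum_comp e.permCongr]
  apply Finset.sum_congr rfl
  intro σ _
  rw [← Equiv.sum_comp e.simpleGraph]
  apply Finset.sum_congr rfl
  intro G _
  have h1 : (∀ a b, (e.simpleGraph G).Adj (e.permCongr σ a) (e.permCongr σ b) ↔
      (e.simpleGraph G).Adj a b) ↔ (∀ a b, G.Adj (σ a) (σ b) ↔ G.Adj a b) := by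
    constructor
    · intro h a b
      have := h (e a) (e b)
      simpa [Equiv.simpleGraph_apply] using this
    · intro h a b
      have := h (e.symm a) (e.symm b)
      simpa [Equiv.simpleGraph_apply] using this
  let i : (e.simpleGraph G) ≃g G := SimpleGraph.Iso.comap e.symm G
  have h2 : (∀ v ∈ U.map e.toEmbedding, Nat.card ((e.simpleGraph G).neighborSet v) = 2) ↔
      (∀ v ∈ U, Nat.card (G.neighborSet v) = 2) := by
    have h3 : ∀ v, Nat.card ((e.simpleGraph G).neighborSet v) =
        Nat.card (G.neighborSet (e.symm v)) := fun v => Nat.card_congr (i.mapNeighborSet v)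
    constructor
    · intro h v hv
      have := h (e v) (Finset.mem_map_of_mem _ hv)
      rw [h3] at this
      simpa using this
    · intro h v hv
      rw [h3]
      apply h
      rw [Finset.mem_map_equiv] at hv
      exact hv
  have h3 : Nat.card (e.simpleGraph G).edgeSet = Nat.card G.edgeSet :=
    Nat.card_congr i.mapEdgeSet
  rw [sg_permCongr, h3]
  simp only [h1, h2]

/-- `2 |E|` is the number of ordered adjacent pairs -/
lemma two_card_edge {V : Type} [Finite V] (G : SimpleGraph V) :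
    2 * Nat.card G.edgeSet = Nat.card {p : V × V // G.Adj p.1 p.2} := by
  classical
  cases nonempty_fintype V
  have h := G.two_mul_card_edgeFinset
  rw [Nat.card_eq_fintype_card, ← SimpleGraph.edgeFinset_card, h, Nat.card_eq_fintype_card,
    Fintype.card_subtype]

section

variable {W U : Type}

/-- the graph glued from a graph on `W` and a structure -/
def glue (G : SimpleGraph W) (S : Str W U) : SimpleGraph (W ⊕ U) where
  Adj := fun a b => match a, b with
    | Sum.inl w, Sum.inl w' => G.Adj w w'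
    | Sum.inl w, Sum.inr u => S.T u w
    | Sum.inr u, Sum.inl w => S.T u w
    | Sum.inr u, Sum.inr u' => S.A u u'
  symm := ⟨fun a b h => by
    rcases a with a | a <;> rcases b with b | b <;> simp only at h ⊢
    · exact h.symm
    · exact h
    · exact h
    · exact S.symm _ _ h⟩
  loopless := ⟨fun a h => by
    rcases a with a | a <;> simp only at h
    · exact G.loopless.irrefl a h
    · exact S.irr a h⟩

@[simp] lemma glue_ll (G : SimpleGraph W) (S : Str W U) (w w' : W) :
    (glue G S).Adj (Sum.inl w) (Sum.inl w') ↔ G.Adj w w' := Iff.rfl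
@[simp] lemma glue_lr (G : SimpleGraph W) (S : Str W U) (w : W) (u : U) :
    (glue G S).Adj (Sum.inl w) (Sum.inr u) ↔ S.T u w := Iff.rfl
@[simp] lemma glue_rl (G : SimpleGraph W) (S : Str W U) (w : W) (u : U) :
    (glue G S).Adj (Sum.inr u) (Sum.inl w) ↔ S.T u w := Iff.rfl
@[simp] lemma glue_rr (G : SimpleGraph W) (S : Str W U) (u u' : U) :
    (glue G S).Adj (Sum.inr u) (Sum.inr u') ↔ S.A u u' := Iff.rfl

/-- neighbours in a sum type -/
lemma card_sum_subtype [Finite W] [Finite U] (p : W ⊕ U → Prop) :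
    Nat.card {a : W ⊕ U // p a} =
      Nat.card {w : W // p (Sum.inl w)} + Nat.card {u : U // p (Sum.inr u)} := by
  rw [Nat.card_congr (Equiv.subtypeSum (p := p)), Nat.card_sum]

lemma glue_deg [Finite W] [Finite U] (G : SimpleGraph W) (S : Str W U) (u : U) :
    Nat.card ((glue G S).neighborSet (Sum.inr u)) = 2 := by
  have h : Nat.card ((glue G S).neighborSet (Sum.inr u)) =
      Nat.card {a : W ⊕ U // (glue G S).Adj (Sum.inr u) a} := rfl
  rw [h, card_sum_subtype, ← S.deg u, add_comm]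
  rfl

lemma even_A [Finite U] (S : Str W U) : 2 ∣ Nat.card {p : U × U // S.A p.1 p.2} := by
  let G : SimpleGraph U := { Adj := S.A, symm := ⟨S.symm⟩, loopless := ⟨S.irr⟩ }
  have h := two_card_edge G
  exact ⟨_, h.symm⟩

lemma glue_edges [Finite W] [Finite U] (G : SimpleGraph W) (S : Str W U) :
    Nat.card (glue G S).edgeSet = Nat.card G.edgeSet + S.e := by
  have h1 := two_card_edge (glue G S)
  have h2 := two_card_edge G
  have e1 : Nat.card {p : (W ⊕ U) × (W ⊕ U) // (glue G S).Adj p.1 p.2} =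
      Nat.card {p : W × W // G.Adj p.1 p.2} + Nat.card {p : U × W // S.T p.1 p.2} +
      (Nat.card {p : U × W // S.T p.1 p.2} + Nat.card {p : U × U // S.A p.1 p.2}) := by
    let f : {p : (W ⊕ U) × (W ⊕ U) // (glue G S).Adj p.1 p.2} ≃
        ({p : W × W // G.Adj p.1 p.2} ⊕ {p : U × W // S.T p.1 p.2}) ⊕
        ({p : U × W // S.T p.1 p.2} ⊕ {p : U × U // S.A p.1 p.2}) :=
      { toFun := fun p => match p with
          | ⟨(Sum.inl w, Sum.inl w'), h⟩ => Sum.inl (Sum.inl ⟨(w, w'), h⟩)
          | ⟨(Sum.inl w, Sum.inr u), h⟩ => Sum.inl (Sum.inr ⟨(u, w), h⟩)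
          | ⟨(Sum.inr u, Sum.inl w), h⟩ => Sum.inr (Sum.inl ⟨(u, w), h⟩)
          | ⟨(Sum.inr u, Sum.inr u'), h⟩ => Sum.inr (Sum.inr ⟨(u, u'), h⟩)
        invFun := fun q => match q with
          | Sum.inl (Sum.inl ⟨(w, w'), h⟩) => ⟨(Sum.inl w, Sum.inl w'), h⟩
          | Sum.inl (Sum.inr ⟨(u, w), h⟩) => ⟨(Sum.inl w, Sum.inr u), h⟩
          | Sum.inr (Sum.inl ⟨(u, w), h⟩) => ⟨(Sum.inr u, Sum.inl w), h⟩
          | Sum.inr (Sum.inr ⟨(u, u'), h⟩) => ⟨(Sum.inr u, Sum.inr u'), h⟩
        left_inv := by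
          rintro ⟨⟨a | a, b | b⟩, h⟩ <;> rfl
        right_inv := by
          rintro ((⟨⟨a, b⟩, h⟩ | ⟨⟨a, b⟩, h⟩) | (⟨⟨a, b⟩, h⟩ | ⟨⟨a, b⟩, h⟩)) <;> rfl }
    rw [Nat.card_congr f, Nat.card_sum, Nat.card_sum, Nat.card_sum]
  obtain ⟨c, hc⟩ := even_A S
  unfold Str.e
  omega

lemma glue_auto (τ : Perm W) (υ : Perm U) (G : SimpleGraph W) (S : Str W U) :
    (∀ a b, (glue G S).Adj (Equiv.sumCongr τ υ a) (Equiv.sumCongr τ υ b) ↔ (glue G S).Adj a b) ↔
      (∀ a b, G.Adj (τ a) (τ b) ↔ G.Adj a b) ∧ S.Fx τ υ := by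
  constructor
  · intro h
    refine ⟨fun a b => ?_, fun a b => ?_, fun a w => ?_⟩
    · simpa using h (Sum.inl a) (Sum.inl b)
    · simpa using h (Sum.inr a) (Sum.inr b)
    · simpa using h (Sum.inr a) (Sum.inl w)
  · rintro ⟨h1, h2, h3⟩ a b
    rcases a with a | a <;> rcases b with b | b
    · simpa using h1 a b
    · simpa using h3 b a
    · simpa using h3 a b
    · simpa using h2 a b

lemma glue_inj : Function.Injective (fun z : SimpleGraph W × Str W U => glue z.1 z.2) := by
  rintro ⟨G, S⟩ ⟨G', S'⟩ h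
  simp only at h
  have h1 : G = G' := by
    ext a b
    rw [← glue_ll G S, h, glue_ll]
  have h2 : S = S' := by
    apply Str.ext
    · funext a b
      exact propext (by rw [← glue_rr G S, h, glue_rr])
    · funext a b
      exact propext (by rw [← glue_rl G S, h, glue_rl])
  rw [h1, h2]

lemma glue_surj [Finite W] [Finite U] (H : SimpleGraph (W ⊕ U))
    (h : ∀ u, Nat.card (H.neighborSet (Sum.inr u)) = 2) :
    ∃ z : SimpleGraph W × Str W U, glue z.1 z.2 = H := by
  refine ⟨(H.comap Sum.inl,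
    { A := fun u u' => H.Adj (Sum.inr u) (Sum.inr u')
      T := fun u w => H.Adj (Sum.inr u) (Sum.inl w)
      symm := fun a b h => h.symm
      irr := fun a => H.loopless.irrefl _
      deg := ?_ }), ?_⟩
  · intro a
    rw [← h a, add_comm]
    exact (card_sum_subtype (fun b => H.Adj (Sum.inr a) b)).symm
  · ext a b
    rcases a with a | a <;> rcases b with b | b
    · rfl
    · exact ⟨fun h => SimpleGraph.Adj.symm (G := H) h, fun h => SimpleGraph.Adj.symm (G := H) h⟩
    · rfl
    · rfl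

end

section

variable {W U : Type} [Fintype W] [DecidableEq W] [Fintype U] [DecidableEq U]

lemma KK_sum (x : F) : KK (rt W U) x = ∑ τ : Perm W, QW W τ x * Z W U τ x := by
  classical
  unfold KK
  have h1 := (Fintype.sum_of_injective (fun z : Perm W × Perm U => Equiv.sumCongr z.1 z.2)
    (by
      intro z z' h
      exact Perm.sumCongrHom_injective h)
    (fun z => ∑ G : SimpleGraph (W ⊕ U),
      if (∀ a b, G.Adj (Equiv.sumCongr z.1 z.2 a) (Equiv.sumCongr z.1 z.2 b) ↔ G.Adj a b) ∧
        (∀ v ∈ rt W U, Nat.card (G.neighborSet v) = 2) then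
      ((sg (Equiv.sumCongr z.1 z.2) (rt W U) : ℤ) : F) * x ^ Nat.card G.edgeSet else 0)
    (fun σ : Perm (W ⊕ U) => ∑ G : SimpleGraph (W ⊕ U),
      if (∀ a b, G.Adj (σ a) (σ b) ↔ G.Adj a b) ∧ (∀ v ∈ rt W U, Nat.card (G.neighborSet v) = 2)
        then ((sg σ (rt W U) : ℤ) : F) * x ^ Nat.card G.edgeSet else 0)
    (by
      intro σ hσ
      have h0 : sg σ (rt W U) = 0 := by
        by_contra hne
        exact hσ (exists_sumCongr σ hne)
      simp [h0])
    (fun z => rfl))
  rw [← h1, Fintype.sum_prod_type]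
  apply Finset.sum_congr rfl
  intro τ _
  unfold Z
  rw [Finset.mul_sum]
  apply Finset.sum_congr rfl
  intro υ _
  have h2 := (Fintype.sum_of_injective (fun z : SimpleGraph W × Str W U => glue z.1 z.2) glue_inj
    (fun z => (if (∀ a b, z.1.Adj (τ a) (τ b) ↔ z.1.Adj a b) then x ^ Nat.card z.1.edgeSet else 0) *
      (if z.2.Fx τ υ then ((Perm.sign υ : ℤ) : F) * x ^ z.2.e else 0))
    (fun G : SimpleGraph (W ⊕ U) =>
      if (∀ a b, G.Adj (Equiv.sumCongr τ υ a) (Equiv.sumCongr τ υ b) ↔ G.Adj a b) ∧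
        (∀ v ∈ rt W U, Nat.card (G.neighborSet v) = 2) then
      ((sg (Equiv.sumCongr τ υ) (rt W U) : ℤ) : F) * x ^ Nat.card G.edgeSet else 0)
    (by
      intro G hG
      rw [if_neg]
      rintro ⟨-, h3⟩
      apply hG
      exact glue_surj G (fun u => h3 _ (mem_rt.mpr ⟨u, rfl⟩)))
    (by
      intro z
      have h3 : ∀ v ∈ rt W U, Nat.card ((glue z.1 z.2).neighborSet v) = 2 := by
        intro v hv
        obtain ⟨u, rfl⟩ := mem_rt.mp hv
        exact glue_deg z.1 z.2 u
      simp only [glue_auto, glue_edges, sg_sumCongr]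
      by_cases h4 : (∀ a b, z.1.Adj (τ a) (τ b) ↔ z.1.Adj a b)
      · by_cases h5 : z.2.Fx τ υ
        · rw [if_pos h4, if_pos h5, if_pos ⟨⟨h4, h5⟩, h3⟩, pow_add]; ring
        · rw [if_neg h5, mul_zero, if_neg (fun h => h5 h.1.2)]
      · rw [if_neg h4, zero_mul, if_neg (fun h => h4 h.1.1)]))
  simp only at h2 ⊢
  rw [← h2, Fintype.sum_prod_type]
  unfold QW
  rw [Finset.sum_mul_sum]
  refine Finset.sum_congr (by ext; simp) fun G _ => Finset.sum_congr rfl fun S _ => ?_
  by_cases h4 : (∀ a b, G.Adj (τ a) (τ b) ↔ G.Adj a b)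
  · by_cases h5 : S.Fx τ υ
    · simp only [if_pos h4, if_pos h5]
    · simp only [if_neg h5, mul_zero]
  · simp only [if_neg h4, zero_mul]

end

/-- the sum for a subset of `Fin p` depends only on its size -/
lemma KK_card {p : ℕ} (U : Finset (Fin p)) (x : F) :
    KK U x = ∑ τ : Perm (Fin (p - U.card)), QW (Fin (p - U.card)) τ x *
      Z (Fin (p - U.card)) (Fin U.card) τ x := by
  classical
  have e1 : U ≃ Fin U.card := U.equivFin
  have hc : (Uᶜ).card = p - U.card := by rw [Finset.card_compl, Fintype.card_fin]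
  have e2 : (Uᶜ : Finset (Fin p)) ≃ Fin (p - U.card) := Finset.equivFinOfCardEq hc
  let e : Fin (p - U.card) ⊕ Fin U.card ≃ Fin p :=
    (Equiv.sumCongr e2.symm e1.symm).trans
      ((Equiv.sumComm _ _).trans
        (((Equiv.refl _).sumCongr (Equiv.subtypeEquivRight (fun a => Finset.mem_compl))).trans
          (Equiv.sumCompl (fun a => a ∈ U))))
  have he : (rt (Fin (p - U.card)) (Fin U.card)).map e.toEmbedding = U := by
    ext a
    rw [Finset.mem_map]
    constructor
    · rintro ⟨b, hb, rfl⟩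
      obtain ⟨u, rfl⟩ := mem_rt.mp hb
      simp [e]
    · intro ha
      refine ⟨Sum.inr (e1 ⟨a, ha⟩), mem_rt.mpr ⟨_, rfl⟩, ?_⟩
      simp [e]
  rw [← KK_sum, ← KK_transport e, he]

open Classical in
theorem split_h {F : Type} [Field F] (p : ℕ) (x : F) :
    (∑ σ : Perm (Fin p), ∑ G : SimpleGraph (Fin p),
        if (∀ a b, G.Adj (σ a) (σ b) ↔ G.Adj a b) ∧ HIrr G then x ^ Nat.card G.edgeSet else 0) =
      ∑ N ∈ range (p + 1), (p.choose N : F) * ∑ τ : Perm (Fin N),
        QW (Fin N) τ x * ((-1) ^ (p - N) * Z (Fin N) (Fin (p - N)) τ x) := by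
  -- inclusion-exclusion
  have h1 : (∑ σ : Perm (Fin p), ∑ G : SimpleGraph (Fin p),
      if (∀ a b, G.Adj (σ a) (σ b) ↔ G.Adj a b) ∧ HIrr G then x ^ Nat.card G.edgeSet else 0) =
      ∑ σ : Perm (Fin p), ∑ G : SimpleGraph (Fin p), ∑ U : Finset (Fin p),
        (-1 : F) ^ U.card * (if (∀ a b, G.Adj (σ a) (σ b) ↔ G.Adj a b) ∧
          (∀ v ∈ U, Nat.card (G.neighborSet v) = 2) then
          ((sg σ U : ℤ) : F) * x ^ Nat.card G.edgeSet else 0) := by
    apply Finset.sum_congr rfl
    intro σ _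
    apply Finset.sum_congr rfl
    intro G _
    by_cases hG : ∀ a b, G.Adj (σ a) (σ b) ↔ G.Adj a b
    · set D : Finset (Fin p) := univ.filter (fun v => Nat.card (G.neighborSet v) = 2) with hD
      have hDi : ∀ a, σ a ∈ D ↔ a ∈ D := by
        intro a
        rw [hD, Finset.mem_filter, Finset.mem_filter]
        have : Nat.card (G.neighborSet (σ a)) = Nat.card (G.neighborSet a) := by
          symm
          apply Nat.card_congr
          exact σ.subtypeEquiv (fun b => (hG a b).symm)
        simp only [Finset.mem_univ, true_and, this]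
      have h2 := incl_excl σ D hDi
      have h3 : HIrr G ↔ D = ∅ := by
        rw [hD, Finset.filter_eq_empty_iff]
        unfold HIrr
        simp
      have h4 : (∑ U ∈ D.powerset, (-1 : F) ^ U.card * ((sg σ U : ℤ) : F)) =
          if D = ∅ then 1 else 0 := by
        have := congrArg (fun z : ℤ => (z : F)) h2
        simp only [Int.cast_sum, Int.cast_mul, Int.cast_pow, Int.cast_neg, Int.cast_one] at this
        rw [this]
        split_ifs <;> simp
      have h5 : ∀ U : Finset (Fin p), U ∈ D.powerset ↔ ∀ v ∈ U, Nat.card (G.neighborSet v) = 2 := by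
        intro U
        rw [Finset.mem_powerset, hD]
        constructor
        · intro h v hv
          exact (Finset.mem_filter.mp (h hv)).2
        · intro h v hv
          exact Finset.mem_filter.mpr ⟨Finset.mem_univ _, h v hv⟩
      have h6 : (∑ U : Finset (Fin p),
          (-1 : F) ^ U.card * (if (∀ a b, G.Adj (σ a) (σ b) ↔ G.Adj a b) ∧
          (∀ v ∈ U, Nat.card (G.neighborSet v) = 2) then
          ((sg σ U : ℤ) : F) * x ^ Nat.card G.edgeSet else 0)) =
          (∑ U ∈ D.powerset, (-1 : F) ^ U.card * ((sg σ U : ℤ) : F)) * x ^ Nat.card G.edgeSet := by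
        rw [Finset.sum_mul]
        have : D.powerset = univ.filter (fun U => U ∈ D.powerset) := by
          ext U; simp
        rw [this, Finset.sum_filter]
        apply Finset.sum_congr rfl
        intro U _
        by_cases hU : U ∈ D.powerset
        · rw [if_pos hU, if_pos ⟨hG, (h5 U).mp hU⟩]; ring
        · rw [if_neg hU, if_neg (fun h => hU ((h5 U).mpr h.2)), mul_zero]
      rw [h6, h4]
      by_cases h7 : D = ∅
      · rw [if_pos ⟨hG, h3.mpr h7⟩, if_pos h7, one_mul]
      · rw [if_neg (fun h => h7 (h3.mp h.2)), if_neg h7, zero_mul]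
    · rw [if_neg (fun h => hG h.1)]
      symm
      apply Finset.sum_eq_zero
      intro U _
      rw [if_neg (fun h => hG h.1), mul_zero]
  rw [h1]
  have h2 : (∑ σ : Perm (Fin p), ∑ G : SimpleGraph (Fin p), ∑ U : Finset (Fin p),
        (-1 : F) ^ U.card * (if (∀ a b, G.Adj (σ a) (σ b) ↔ G.Adj a b) ∧
          (∀ v ∈ U, Nat.card (G.neighborSet v) = 2) then
          ((sg σ U : ℤ) : F) * x ^ Nat.card G.edgeSet else 0)) =
      ∑ U : Finset (Fin p), (-1 : F) ^ U.card * KK U x := by
    unfold KK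
    simp only [Finset.mul_sum]
    have : ∀ σ : Perm (Fin p), (∑ G : SimpleGraph (Fin p), ∑ U : Finset (Fin p),
        (-1 : F) ^ U.card * (if (∀ a b, G.Adj (σ a) (σ b) ↔ G.Adj a b) ∧
          (∀ v ∈ U, Nat.card (G.neighborSet v) = 2) then
          ((sg σ U : ℤ) : F) * x ^ Nat.card G.edgeSet else 0)) =
        ∑ U : Finset (Fin p), ∑ G : SimpleGraph (Fin p),
        (-1 : F) ^ U.card * (if (∀ a b, G.Adj (σ a) (σ b) ↔ G.Adj a b) ∧
          (∀ v ∈ U, Nat.card (G.neighborSet v) = 2) then
          ((sg σ U : ℤ) : F) * x ^ Nat.card G.edgeSet else 0) := fun σ => Finset.sum_comm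
    simp only [this]
    rw [Finset.sum_comm]
    refine Finset.sum_congr rfl fun U _ => Finset.sum_congr rfl fun σ _ =>
      Finset.sum_congr rfl fun G _ => ?_
    by_cases h4 : (∀ a b, G.Adj (σ a) (σ b) ↔ G.Adj a b) ∧
          (∀ v ∈ U, Nat.card (G.neighborSet v) = 2)
    · simp only [if_pos h4]
    · simp only [if_neg h4]
  rw [h2]
  set f : ℕ → F := fun m => (-1) ^ m * ∑ τ : Perm (Fin (p - m)), QW (Fin (p - m)) τ x *
      Z (Fin (p - m)) (Fin m) τ x with hf
  have h3 : (∑ U : Finset (Fin p), (-1 : F) ^ U.card * KK U x) =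
      ∑ U ∈ (univ : Finset (Fin p)).powerset, f U.card := by
    rw [Finset.powerset_univ]
    apply Finset.sum_congr rfl
    intro U _
    rw [KK_card]
  rw [h3, Finset.sum_powerset_apply_card, Finset.card_univ, Fintype.card_fin, ← Finset.sum_flip]
  apply Finset.sum_congr rfl
  intro N hN
  rw [Finset.mem_range] at hN
  have hN' : p - (p - N) = N := by omega
  rw [nsmul_eq_mul, Nat.choose_symm (by omega)]
  congr 1
  have h4 : f (p - N) = (-1) ^ (p - N) * ∑ τ : Perm (Fin N), QW (Fin N) τ x *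
      Z (Fin N) (Fin (p - N)) τ x := by
    simp only [hf]
    rw [hN']
  rw [h4, Finset.mul_sum]
  apply Finset.sum_congr rfl
  intro τ _
  ring

end Pool.Agent.TH59.HI
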