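import Pool.Agent.TH349.HI.Defs

set_option autoImplicit false

open Finset Equiv

namespace Pool.Agent.TH59.HI

section

variable {V : Type} [Fintype V] [DecidableEq V]

open Classical in
/-- the permutation equal to `σ` on the invariant set `U` and to the identity elsewhere -/
noncomputable def rs (σ : Perm V) (U : Finset V) : Perm V :=
  if h : ∀ a, σ a ∈ U ↔ a ∈ U then Perm.ofSubtype (σ.subtypePerm (p := fun a => a ∈ U) h) else 1

lemma rs_mem {σ : Perm V} {U : Finset V} (h : ∀ a, σ a ∈ U ↔ a ∈ U) {a : V} (ha : a ∈ U) :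
    rs σ U a = σ a := by
  unfold rs
  rw [dif_pos h, Perm.ofSubtype_apply_of_mem _ ha]
  rfl

lemma rs_notMem {σ : Perm V} {U : Finset V} {a : V} (ha : a ∉ U) : rs σ U a = a := by
  unfold rs
  split_ifs with h
  · rw [Perm.ofSubtype_apply_of_not_mem _ ha]
  · rfl

lemma rs_eq {σ ρ : Perm V} {U : Finset V} (h : ∀ a, σ a ∈ U ↔ a ∈ U) (h1 : ∀ a ∈ U, ρ a = σ a)
    (h2 : ∀ a, a ∉ U → ρ a = a) : rs σ U = ρ := by
  ext a
  by_cases ha : a ∈ U
  · rw [rs_mem h ha, h1 a ha]
  · rw [rs_notMem ha, h2 a ha]

open Classical in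
/-- sign of the restriction to `U`, zero if `U` is not invariant -/
noncomputable def sg (σ : Perm V) (U : Finset V) : ℤ :=
  if ∀ a, σ a ∈ U ↔ a ∈ U then ((Perm.sign (rs σ U) : ℤˣ) : ℤ) else 0

/-- the cycle of a point -/
noncomputable def orb (σ : Perm V) (v : V) : Finset V := by
  classical exact univ.filter (fun w => σ.SameCycle v w)

lemma mem_orb {σ : Perm V} {v w : V} : w ∈ orb σ v ↔ σ.SameCycle v w := by
  simp [orb]

lemma orb_inv {σ : Perm V} {v : V} (a : V) : σ a ∈ orb σ v ↔ a ∈ orb σ v := by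
  rw [mem_orb, mem_orb]; exact Perm.sameCycle_apply_right

lemma self_mem_orb {σ : Perm V} {v : V} : v ∈ orb σ v := by
  rw [mem_orb]

lemma orb_subset {σ : Perm V} {U : Finset V} (h : ∀ a, σ a ∈ U ↔ a ∈ U) {v : V} (hv : v ∈ U) :
    orb σ v ⊆ U := by
  intro w hw
  rw [mem_orb] at hw
  obtain ⟨n, rfl⟩ := hw
  have h1 : ∀ n : ℤ, (σ ^ n) v ∈ U := by
    intro n
    induction n with
    | zero => simpa using hv
    | succ n ih =>
      rw [add_comm, zpow_add, zpow_one, Perm.mul_apply, h]; exact ih
    | pred n ih =>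
      rw [← h, ← Perm.mul_apply, ← zpow_one_add]
      simpa using ih
  exact h1 n

lemma sign_orb (σ : Perm V) (v : V) :
    ((Perm.sign (rs σ (orb σ v)) : ℤˣ) : ℤ) = - (-1) ^ (orb σ v).card := by
  by_cases hv : σ v = v
  · have h1 : orb σ v = {v} := by
      ext w
      rw [mem_orb, Finset.mem_singleton]
      constructor
      · intro h
        exact (Perm.SameCycle.eq_of_left h hv).symm
      · rintro rfl; exact Perm.SameCycle.refl _ _
    have h2 : rs σ (orb σ v) = 1 := by
      apply rs_eq orb_inv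
      · intro a ha
        rw [h1, Finset.mem_singleton] at ha
        subst ha
        rw [hv]; rfl
      · intro a _; rfl
    rw [h2, h1]; simp
  · have h2 : rs σ (orb σ v) = σ.cycleOf v := by
      apply rs_eq orb_inv
      · intro a ha
        rw [mem_orb] at ha
        exact ha.cycleOf_apply
      · intro a ha
        rw [mem_orb] at ha
        exact Perm.cycleOf_apply_of_not_sameCycle ha
    have h3 : (σ.cycleOf v).support = orb σ v := by
      ext w
      rw [mem_orb, Perm.mem_support_cycleOf_iff]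
      constructor
      · exact fun h => h.1
      · intro h
        exact ⟨h, by rw [Perm.mem_support]; exact hv⟩
    rw [h2, (Perm.isCycle_cycleOf σ hv).sign, h3]
    push_cast
    rfl

lemma sg_union {σ : Perm V} {U O : Finset V} (hU : ∀ a, σ a ∈ U ↔ a ∈ U)
    (hO : ∀ a, σ a ∈ O ↔ a ∈ O) (hd : Disjoint U O) :
    sg σ (U ∪ O) = sg σ U * ((Perm.sign (rs σ O) : ℤˣ) : ℤ) := by
  have hUO : ∀ a, σ a ∈ U ∪ O ↔ a ∈ U ∪ O := by
    intro a; rw [Finset.mem_union, Finset.mem_union, hU, hO]
  have h1 : rs σ (U ∪ O) = rs σ U * rs σ O := by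
    apply rs_eq hUO
    · intro a ha
      rw [Perm.mul_apply]
      by_cases hb : a ∈ O
      · rw [rs_mem hO hb]
        have : σ a ∉ U := by
          intro h
          exact (Finset.disjoint_left.mp hd h) ((hO a).mpr hb)
        exact rs_notMem this
      · have ha' : a ∈ U := by
          rw [Finset.mem_union] at ha; tauto
        rw [rs_notMem hb, rs_mem hU ha']
    · intro a ha
      rw [Finset.mem_union] at ha
      push Not at ha
      rw [Perm.mul_apply, rs_notMem ha.2, rs_notMem ha.1]
  unfold sg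
  rw [if_pos hU, if_pos hUO, h1, Perm.sign_mul]
  push_cast
  rfl

/-- inclusion-exclusion over invariant sets -/
lemma incl_excl (σ : Perm V) (D : Finset V) (hD : ∀ a, σ a ∈ D ↔ a ∈ D) :
    ∑ U ∈ D.powerset, (-1 : ℤ) ^ U.card * sg σ U = if D = ∅ then 1 else 0 := by
  classical
  split_ifs with h0
  · subst h0
    have h1 : rs σ (∅ : Finset V) = 1 := by
      apply rs_eq
      · intro a; simp
      · intro a ha; simp at ha
      · intro a _; rfl
    simp [sg, h1]
  · obtain ⟨v, hv⟩ := Finset.nonempty_iff_ne_empty.mpr h0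
    have hf : ∑ U ∈ D.powerset, (-1 : ℤ) ^ U.card * sg σ U =
        ∑ U ∈ D.powerset.filter (fun U => ∀ a, σ a ∈ U ↔ a ∈ U), (-1 : ℤ) ^ U.card * sg σ U := by
      rw [Finset.sum_filter]
      apply Finset.sum_congr rfl
      intro U _
      split_ifs with h
      · rfl
      · rw [sg, if_neg h, mul_zero]
    rw [hf]
    set O := orb σ v with hO
    have hOD : O ⊆ D := orb_subset hD hv
    have hOi : ∀ a, σ a ∈ O ↔ a ∈ O := orb_inv
    -- adding the orbit changes the sign
    have key : ∀ U : Finset V, (∀ a, σ a ∈ U ↔ a ∈ U) → v ∉ U →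
        (-1 : ℤ) ^ (U ∪ O).card * sg σ (U ∪ O) = - ((-1 : ℤ) ^ U.card * sg σ U) := by
      intro U hU hvU
      have hd : Disjoint U O := by
        rw [Finset.disjoint_left]
        intro a haU haO
        rw [hO, mem_orb] at haO
        have : v ∈ orb σ a := by rw [mem_orb]; exact haO.symm
        exact hvU (orb_subset hU haU this)
      rw [sg_union hU hOi hd, Finset.card_union_of_disjoint hd, hO, sign_orb, pow_add]
      have h1 : ((-1 : ℤ) ^ (orb σ v).card) * ((-1 : ℤ) ^ (orb σ v).card) = 1 := by
        rw [← mul_pow]; simp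
      linear_combination (- (-1 : ℤ) ^ U.card * sg σ U) * h1
    have hsd : ∀ U : Finset V, (∀ a, σ a ∈ U ↔ a ∈ U) → v ∈ U → O ⊆ U :=
      fun U hU hvU => orb_subset hU hvU
    refine Finset.sum_involution (fun U _ => if v ∈ U then U \ O else U ∪ O) ?_ ?_ ?_ ?_
    · intro U hU
      rw [Finset.mem_filter] at hU
      obtain ⟨-, hU⟩ := hU
      by_cases hvU : v ∈ U
      · simp only [hvU, if_true]
        have h1 : ∀ a, σ a ∈ U \ O ↔ a ∈ U \ O := by
          intro a; rw [Finset.mem_sdiff, Finset.mem_sdiff, hU, hOi]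
        have h2 : v ∉ U \ O := by
          rw [Finset.mem_sdiff]
          intro h; exact h.2 self_mem_orb
        have h3 := key _ h1 h2
        rw [Finset.sdiff_union_of_subset (hsd U hU hvU)] at h3
        rw [h3]; ring
      · simp only [hvU, if_false]
        rw [key U hU hvU]; ring
    · intro U hU _
      rw [Finset.mem_filter] at hU
      obtain ⟨-, hU⟩ := hU
      by_cases hvU : v ∈ U
      · simp only [hvU, if_true]
        intro h
        have : v ∈ U \ O := by rw [h]; exact hvU
        rw [Finset.mem_sdiff] at this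
        exact this.2 self_mem_orb
      · simp only [hvU, if_false]
        intro h
        apply hvU
        rw [← h]
        exact Finset.mem_union_right _ self_mem_orb
    · intro U hU
      rw [Finset.mem_filter, Finset.mem_powerset] at hU ⊢
      obtain ⟨hUD, hU⟩ := hU
      by_cases hvU : v ∈ U
      · simp only [hvU, if_true]
        refine ⟨Finset.sdiff_subset.trans hUD, ?_⟩
        intro a; rw [Finset.mem_sdiff, Finset.mem_sdiff, hU, hOi]
      · simp only [hvU, if_false]
        refine ⟨Finset.union_subset hUD hOD, ?_⟩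
        intro a; rw [Finset.mem_union, Finset.mem_union, hU, hOi]
    · intro U hU
      rw [Finset.mem_filter] at hU
      obtain ⟨-, hU⟩ := hU
      by_cases hvU : v ∈ U
      · have h2 : v ∉ U \ O := by
          rw [Finset.mem_sdiff]
          intro h; exact h.2 self_mem_orb
        simp only [hvU, if_true, h2, if_false]
        exact Finset.sdiff_union_of_subset (hsd U hU hvU)
      · have h2 : v ∈ U ∪ O := Finset.mem_union_right _ self_mem_orb
        simp only [hvU, if_false, h2, if_true]
        have hd : Disjoint U O := by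
          rw [Finset.disjoint_left]
          intro a haU haO
          rw [hO, mem_orb] at haO
          have : v ∈ orb σ a := by rw [mem_orb]; exact haO.symm
          exact hvU (orb_subset hU haU this)
        exact Finset.union_sdiff_cancel_right hd

/-- transport -/
lemma sg_permCongr {V' : Type} [Fintype V'] [DecidableEq V'] (e : V' ≃ V) (σ : Perm V')
    (U : Finset V') : sg (e.permCongr σ) (U.map e.toEmbedding) = sg σ U := by
  have hmem : ∀ a, a ∈ U.map e.toEmbedding ↔ e.symm a ∈ U := by
    intro a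
    rw [Finset.mem_map_equiv]
  have hinv : (∀ a, e.permCongr σ a ∈ U.map e.toEmbedding ↔ a ∈ U.map e.toEmbedding) ↔
      (∀ a, σ a ∈ U ↔ a ∈ U) := by
    constructor
    · intro h a
      have := h (e a)
      rw [hmem, hmem] at this
      simpa using this
    · intro h a
      rw [hmem, hmem, ← h (e.symm a)]
      simp
  unfold sg
  by_cases h : ∀ a, σ a ∈ U ↔ a ∈ U
  · rw [if_pos h, if_pos (hinv.mpr h)]
    have : rs (e.permCongr σ) (U.map e.toEmbedding) = e.permCongr (rs σ U) := by
      apply rs_eq (hinv.mpr h)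
      · intro a ha
        rw [hmem] at ha
        simp only [Equiv.permCongr_apply]
        rw [rs_mem h ha]
      · intro a ha
        rw [hmem] at ha
        simp only [Equiv.permCongr_apply]
        rw [rs_notMem ha]; simp
    rw [this, Perm.sign_permCongr]
  · rw [if_neg h, if_neg (fun h' => h (hinv.mp h'))]

end

section

variable {W U : Type} [Fintype W] [DecidableEq W] [Fintype U] [DecidableEq U]

/-- the right summand -/
def rt (W U : Type) [Fintype U] : Finset (W ⊕ U) := univ.map Function.Embedding.inr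

lemma mem_rt {a : W ⊕ U} : a ∈ rt W U ↔ ∃ u, a = Sum.inr u := by
  unfold rt
  rw [Finset.mem_map]
  constructor
  · rintro ⟨u, -, rfl⟩; exact ⟨u, rfl⟩
  · rintro ⟨u, rfl⟩; exact ⟨u, Finset.mem_univ _, rfl⟩

lemma sg_sumCongr (τ : Perm W) (υ : Perm U) :
    sg (Equiv.sumCongr τ υ) (rt W U) = ((Perm.sign υ : ℤˣ) : ℤ) := by
  have hinv : ∀ a, Equiv.sumCongr τ υ a ∈ rt W U ↔ a ∈ rt W U := by
    intro a
    rcases a with a | a <;> simp [mem_rt]
  have h1 : rs (Equiv.sumCongr τ υ) (rt W U) = Equiv.sumCongr 1 υ := by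
    apply rs_eq hinv
    · intro a ha
      rw [mem_rt] at ha
      obtain ⟨u, rfl⟩ := ha
      simp
    · intro a ha
      rcases a with a | a
      · simp
      · exact absurd (mem_rt.mpr ⟨a, rfl⟩) ha
  unfold sg
  rw [if_pos hinv, h1]
  have : Perm.sign (Equiv.sumCongr (1 : Perm W) υ) = Perm.sign υ := by
    have := Perm.sign_sumCongr (1 : Perm W) υ
    simpa using this
  rw [this]

lemma exists_sumCongr (σ : Perm (W ⊕ U)) (h : sg σ (rt W U) ≠ 0) :
    ∃ z : Perm W × Perm U, Equiv.sumCongr z.1 z.2 = σ := by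
  have hinv : ∀ a, σ a ∈ rt W U ↔ a ∈ rt W U := by
    by_contra hn
    apply h
    unfold sg
    rw [if_neg hn]
  have h1 : Set.MapsTo σ (Set.range Sum.inl) (Set.range Sum.inl) := by
    rintro _ ⟨w, rfl⟩
    rcases hσ : σ (Sum.inl w) with a | a
    · exact ⟨a, rfl⟩
    · exfalso
      have h2 : σ (Sum.inl w) ∈ rt W U := mem_rt.mpr ⟨a, hσ⟩
      rw [hinv, mem_rt] at h2
      obtain ⟨u, hu⟩ := h2
      simp at hu
  have h2 := Perm.mem_sumCongrHom_range_of_perm_mapsTo_inl h1
  obtain ⟨z, hz⟩ := h2
  exact ⟨z, hz⟩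

end

end Pool.Agent.TH59.HI
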